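import Pool.Agent.Lib.MP_05b8f3_gt.Theta

set_option autoImplicit false

open Complex Real UpperHalfPlane ModularGroup

namespace Pool.Agent.Lib.MP_05b8f3_gt

theorem exp_bound {y : ℝ} (hy : 3 / 4 ≤ y) : rexp (-π * y) ≤ 1 / 5 := by
  have h3 : (3 : ℝ) < π := Real.pi_gt_three
  have h2 : (2 : ℝ) ≤ π * y := by nlinarith
  have h5 : (5 : ℝ) ≤ rexp (π * y) := by
    have h0 : (0 : ℝ) ≤ π * y := by linarith
    have := Real.quadratic_le_exp_of_nonneg h0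
    nlinarith
  have : rexp (-π * y) = (rexp (π * y))⁻¹ := by
    rw [← Real.exp_neg]; congr 1; ring
  rw [this, one_div]
  exact inv_anti₀ (by norm_num) h5

theorem half_le_norm_th3 {τ : ℂ} (h : 3 / 4 ≤ τ.im) : 1 / 2 ≤ ‖th3 τ‖ := by
  have hτ : 0 < τ.im := by linarith
  have h1 := norm_jacobiTheta_sub_one_le hτ
  rw [jacobiTheta_eq_jacobiTheta₂] at h1
  have he := exp_bound h
  have he0 := Real.exp_pos (-π * τ.im)
  have h2 : 2 / (1 - rexp (-π * τ.im)) * rexp (-π * τ.im) ≤ 1 / 2 := by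
    rw [div_mul_eq_mul_div, div_le_iff₀ (by linarith)]
    linarith
  have h3 : ‖(1 : ℂ)‖ ≤ ‖th3 τ‖ + ‖th3 τ - 1‖ := by
    have : (1 : ℂ) = th3 τ - (th3 τ - 1) := by ring
    calc ‖(1 : ℂ)‖ = ‖th3 τ - (th3 τ - 1)‖ := by rw [← this]
      _ ≤ _ := norm_sub_le _ _
  rw [norm_one] at h3
  simp only [th3] at *
  linarith

theorem half_le_norm_th4 {τ : ℂ} (h : 3 / 4 ≤ τ.im) : 1 / 2 ≤ ‖th4 τ‖ := by
  rw [← th3_add_one]
  apply half_le_norm_th3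
  simpa using h

theorem th4_ne_zero {τ : ℂ} (hτ : 0 < τ.im) : th4 τ ≠ 0 := by
  intro h0
  have key : ∀ n : ℕ, th4 ((2 : ℂ) ^ n * τ) = 0 ∧ 0 < ((2 : ℂ) ^ n * τ).im ∧
      ((2 : ℂ) ^ n * τ).im = 2 ^ n * τ.im := by
    intro n
    induction n with
    | zero => simpa using ⟨h0, hτ⟩
    | succ n ih =>
      obtain ⟨i1, i2, i3⟩ := ih
      have e : (2 : ℂ) ^ (n + 1) * τ = 2 * ((2 : ℂ) ^ n * τ) := by ring
      have h := th3_mul_th4 _ i2
      rw [i1, mul_zero] at h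
      have him : (2 * ((2 : ℂ) ^ n * τ)).im = 2 * ((2 : ℂ) ^ n * τ).im := by
        simp [Complex.mul_im]
      refine ⟨?_, ?_, ?_⟩
      · rw [e]
        exact pow_eq_zero_iff (two_ne_zero) |>.mp h.symm
      · rw [e, him]; linarith
      · rw [e, him, i3]; ring
  obtain ⟨n, hn⟩ := pow_unbounded_of_one_lt (1 / τ.im) (one_lt_two)
  obtain ⟨i1, i2, i3⟩ := key n
  have : 3 / 4 ≤ ((2 : ℂ) ^ n * τ).im := by
    rw [i3]
    rw [div_lt_iff₀ hτ] at hn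
    linarith
  have := half_le_norm_th4 this
  rw [i1, norm_zero] at this
  linarith

theorem th3_ne_zero {τ : ℂ} (hτ : 0 < τ.im) : th3 τ ≠ 0 := by
  intro h0
  have h := th3_mul_th4 _ hτ
  rw [h0, zero_mul] at h
  exact th4_ne_zero (im_two_mul hτ) (pow_eq_zero_iff (two_ne_zero) |>.mp h.symm)

theorem im_S {τ : ℂ} (hτ : 0 < τ.im) : (-1 / τ).im = τ.im / ‖τ‖ ^ 2 := by
  rw [neg_div, Complex.neg_im, one_div, Complex.inv_im, neg_div, neg_neg, Complex.normSq_eq_norm_sq]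

theorem norm_pos_of_im {τ : ℂ} (hτ : 0 < τ.im) : 0 < ‖τ‖ := by
  rw [norm_pos_iff]
  rintro rfl; simp at hτ

theorem im_S_pos {τ : ℂ} (hτ : 0 < τ.im) : 0 < (-1 / τ).im := by
  rw [im_S hτ]
  have := norm_pos_of_im hτ
  positivity

theorem th2_ne_zero {τ : ℂ} (hτ : 0 < τ.im) : th2 τ ≠ 0 := by
  intro h0
  have h := norm_th2_S τ hτ
  rw [h0, norm_zero] at h
  have h4 := th4_ne_zero (im_S_pos hτ)
  have h5 : ‖th4 (-1 / τ)‖ ^ 4 = 0 := by rw [h]; ring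
  exact h4 (norm_eq_zero.mp (pow_eq_zero_iff (by norm_num) |>.mp h5))

theorem th3_sq_sub_ne_zero {τ : ℂ} (hτ : 0 < τ.im) : th3 τ ^ 2 - th2 τ ^ 2 ≠ 0 := by
  have h2 : 0 < (τ / 2).im := by
    simp; exact hτ
  have e : 2 * (τ / 2) = τ := by ring
  have h := th4_sq (τ / 2) h2
  rw [e] at h
  rw [← h]
  exact pow_ne_zero _ (th4_ne_zero h2)

theorem th3_sq_add_ne_zero {τ : ℂ} (hτ : 0 < τ.im) : th3 τ ^ 2 + th2 τ ^ 2 ≠ 0 := by
  have h2 : 0 < (τ / 2).im := by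
    simp; exact hτ
  have e : 2 * (τ / 2) = τ := by ring
  have h := th3_sq (τ / 2) h2
  rw [e] at h
  rw [← h]
  exact pow_ne_zero _ (th3_ne_zero h2)

/-- The invariant function. -/
noncomputable def G (τ : ℂ) : ℝ := τ.im * (‖th2 τ‖ ^ 4 + ‖th3 τ‖ ^ 4 + ‖th4 τ‖ ^ 4)

theorem G_add_one (τ : ℂ) : G (τ + 1) = G τ := by
  simp only [G, th3_add_one, th4_add_one, norm_th2_add_one]
  simp only [Complex.add_im, Complex.one_im, add_zero]
  ring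

theorem G_S (τ : ℂ) (hτ : 0 < τ.im) : G (-1 / τ) = G τ := by
  simp only [G, norm_th3_S τ hτ, norm_th4_S τ hτ, norm_th2_S τ hτ, im_S hτ]
  have := norm_pos_of_im hτ
  field_simp
  ring

theorem G_smul (γ : Matrix.SpecialLinearGroup (Fin 2) ℤ) (τ : ℍ) :
    G ((γ • τ : ℍ) : ℂ) = G (τ : ℂ) := by
  have hγ : γ ∈ Subgroup.closure {S, T} := by
    simp [_root_.SpecialLinearGroup.SL2Z_generators]
  induction hγ using Subgroup.closure_induction generalizing τ with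
  | one => simp
  | mem g hg =>
    simp only [Set.mem_insert_iff, Set.mem_singleton_iff] at hg
    rcases hg with rfl | rfl
    · rw [UpperHalfPlane.modular_S_smul]
      have e : ((UpperHalfPlane.mk (-(τ : ℂ))⁻¹ τ.im_inv_neg_coe_pos : ℍ) : ℂ) = -1 / (τ : ℂ) := by
        simp [UpperHalfPlane.coe_mk, neg_div, inv_neg]
      rw [e]
      exact G_S _ τ.im_pos
    · rw [UpperHalfPlane.modular_T_smul]
      have e : (((1 : ℝ) +ᵥ τ : ℍ) : ℂ) = (τ : ℂ) + 1 := by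
        simp [UpperHalfPlane.coe_vadd, add_comm]
      rw [e, G_add_one]
  | mul g h _ _ ig ih => rw [mul_smul, ig, ih]
  | inv g _ ig =>
    have := ig (g⁻¹ • τ)
    rw [smul_inv_smul] at this
    exact this.symm

theorem G_lower (τ : ℂ) (hτ : 0 < τ.im) : 3 / 64 ≤ G τ := by
  obtain ⟨γ, hγ⟩ := ModularGroup.exists_smul_mem_fd (⟨τ, hτ⟩ : ℍ)
  have h1 := G_smul γ (⟨τ, hτ⟩ : ℍ)
  have h2 : G τ = G ((γ • (⟨τ, hτ⟩ : ℍ) : ℍ) : ℂ) := h1.symm
  rw [h2]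
  set σ : ℍ := γ • (⟨τ, hτ⟩ : ℍ) with hσ
  have h3 := ModularGroup.three_le_four_mul_im_sq_of_mem_fd hγ
  have hpos : 0 < σ.im := σ.im_pos
  have h4 : 3 / 4 ≤ σ.im := by nlinarith
  have h4' : 3 / 4 ≤ (σ : ℂ).im := h4
  have h5 := half_le_norm_th3 h4'
  have h6 : (1 / 2 : ℝ) ^ 4 ≤ ‖th3 σ‖ ^ 4 := pow_le_pow_left₀ (by norm_num) h5 4
  have h7 : 0 ≤ ‖th2 σ‖ ^ 4 := by positivity
  have h8 : 0 ≤ ‖th4 σ‖ ^ 4 := by positivity
  simp only [G]
  nlinarith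

end Pool.Agent.Lib.MP_05b8f3_gt
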