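import Pool.Agent.Lib.MP_05b8f3_gt.Bound

set_option autoImplicit false

open Complex Real Metric

namespace Pool.Agent.Lib.MP_05b8f3_gt

/-- The Cayley transform from the disc to the upper half plane. -/
noncomputable def cay (w : ℂ) : ℂ := I * (1 + w) / (1 - w)

theorem one_sub_ne {w : ℂ} (hw : ‖w‖ < 1) : 1 - w ≠ 0 := by
  intro h
  have : w = 1 := by linear_combination -h
  rw [this, norm_one] at hw
  exact lt_irrefl _ hw

theorem cay_im {w : ℂ} (hw : ‖w‖ < 1) : (cay w).im = (1 - ‖w‖ ^ 2) / ‖1 - w‖ ^ 2 := by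
  have h1 := one_sub_ne hw
  have h2 : Complex.normSq (1 - w) ≠ 0 := (Complex.normSq_pos.mpr h1).ne'
  rw [← Complex.normSq_eq_norm_sq, ← Complex.normSq_eq_norm_sq]
  simp only [cay, Complex.div_im, Complex.mul_im, Complex.mul_re, Complex.I_im, Complex.I_re,
    Complex.add_re, Complex.add_im, Complex.sub_re, Complex.sub_im, Complex.one_re, Complex.one_im,
    Complex.normSq_apply] at *
  field_simp
  ring

theorem cay_im_pos {w : ℂ} (hw : ‖w‖ < 1) : 0 < (cay w).im := by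
  rw [cay_im hw]
  have h1 : 0 < ‖1 - w‖ := norm_pos_iff.mpr (one_sub_ne hw)
  have h2 : ‖w‖ ^ 2 < 1 := by
    have := norm_nonneg w
    nlinarith
  have h3 : 0 < 1 - ‖w‖ ^ 2 := by linarith
  positivity

theorem differentiableAt_th3 {τ : ℂ} (hτ : 0 < τ.im) : DifferentiableAt ℂ th3 τ :=
  differentiableAt_jacobiTheta₂_snd 0 hτ

theorem differentiableAt_th2 {τ : ℂ} (hτ : 0 < τ.im) : DifferentiableAt ℂ th2 τ := by
  unfold th2
  apply DifferentiableAt.mul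
  · fun_prop
  · have h1 := (hasFDerivAt_jacobiTheta₂ (τ / 2) hτ).differentiableAt
    have h2 : DifferentiableAt ℂ (fun t : ℂ => ((t / 2, t) : ℂ × ℂ)) τ := by fun_prop
    exact DifferentiableAt.comp (f := fun t : ℂ => ((t / 2, t) : ℂ × ℂ))
      (g := fun p : ℂ × ℂ => jacobiTheta₂ p.1 p.2) τ h1 h2

noncomputable def A (w : ℂ) : ℂ := th2 (cay w) ^ 2 / (1 - w)

noncomputable def B (w : ℂ) : ℂ := th3 (cay w) ^ 2 / (1 - w)

theorem differentiableAt_cay {w : ℂ} (hw : ‖w‖ < 1) : DifferentiableAt ℂ cay w := by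
  unfold cay
  have := one_sub_ne hw
  fun_prop (disch := assumption)

theorem differentiableAt_A {w : ℂ} (hw : ‖w‖ < 1) : DifferentiableAt ℂ A w := by
  unfold A
  have h1 := one_sub_ne hw
  have h2 : DifferentiableAt ℂ (fun w => th2 (cay w)) w :=
    DifferentiableAt.comp w (differentiableAt_th2 (cay_im_pos hw)) (differentiableAt_cay hw)
  fun_prop (disch := assumption)

theorem differentiableAt_B {w : ℂ} (hw : ‖w‖ < 1) : DifferentiableAt ℂ B w := by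
  unfold B
  have h1 := one_sub_ne hw
  have h2 : DifferentiableAt ℂ (fun w => th3 (cay w)) w :=
    DifferentiableAt.comp w (differentiableAt_th3 (cay_im_pos hw)) (differentiableAt_cay hw)
  fun_prop (disch := assumption)

theorem A_ne {w : ℂ} (hw : ‖w‖ < 1) : A w ≠ 0 :=
  div_ne_zero (pow_ne_zero _ (th2_ne_zero (cay_im_pos hw))) (one_sub_ne hw)

theorem B_ne {w : ℂ} (hw : ‖w‖ < 1) : B w ≠ 0 :=
  div_ne_zero (pow_ne_zero _ (th3_ne_zero (cay_im_pos hw))) (one_sub_ne hw)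

theorem A_ne_B {w : ℂ} (hw : ‖w‖ < 1) : A w ≠ B w := by
  intro h
  unfold A B at h
  rw [div_left_inj' (one_sub_ne hw)] at h
  apply th3_sq_sub_ne_zero (cay_im_pos hw)
  rw [h]; ring

theorem A_ne_neg_B {w : ℂ} (hw : ‖w‖ < 1) : A w ≠ - B w := by
  intro h
  unfold A B at h
  rw [← neg_div, div_left_inj' (one_sub_ne hw)] at h
  apply th3_sq_add_ne_zero (cay_im_pos hw)
  rw [h]; ring

theorem AB_lower {w : ℂ} (hw : ‖w‖ < 1) :
    (3 / 128) / (1 - ‖w‖ ^ 2) ≤ ‖A w‖ ^ 2 + ‖B w‖ ^ 2 := by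
  have hG := G_lower (cay w) (cay_im_pos hw)
  have h4 : ‖th4 (cay w)‖ ^ 4 ≤ ‖th3 (cay w)‖ ^ 4 + ‖th2 (cay w)‖ ^ 4 := by
    have := th4_pow_four (cay w) (cay_im_pos hw)
    rw [← norm_pow, this]
    refine (norm_sub_le _ _).trans ?_
    rw [norm_pow, norm_pow]
  have h1 : 0 < ‖1 - w‖ := norm_pos_iff.mpr (one_sub_ne hw)
  have h2 : ‖w‖ ^ 2 < 1 := by
    have := norm_nonneg w
    nlinarith
  have h3 : 0 < 1 - ‖w‖ ^ 2 := by linarith
  unfold G at hG
  rw [cay_im hw] at hG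
  have hA : ‖A w‖ ^ 2 = ‖th2 (cay w)‖ ^ 4 / ‖1 - w‖ ^ 2 := by
    unfold A
    rw [norm_div, norm_pow, div_pow]; ring
  have hB : ‖B w‖ ^ 2 = ‖th3 (cay w)‖ ^ 4 / ‖1 - w‖ ^ 2 := by
    unfold B
    rw [norm_div, norm_pow, div_pow]; ring
  rw [hA, hB, ← add_div, div_le_div_iff₀ h3 (by positivity)]
  rw [div_mul_eq_mul_div, le_div_iff₀ (by positivity)] at hG
  nlinarith

theorem cay_zero : cay 0 = I := by simp [cay]

theorem cay_w1 : cay (1 / (1 + 2 * I)) = 1 + I := by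
  unfold cay
  have h : (1 + 2 * I : ℂ) ≠ 0 := by
    intro h
    have := congrArg Complex.re h
    simp at this
  have h2 : (1 - 1 / (1 + 2 * I) : ℂ) ≠ 0 := by
    have : (1 - 1 / (1 + 2 * I) : ℂ) = 2 * I / (1 + 2 * I) := by field_simp; ring
    rw [this]
    exact div_ne_zero (mul_ne_zero two_ne_zero I_ne_zero) h
  have h3 : (1 / (1 + 2 * I) : ℂ) * (1 + 2 * I) = 1 := by field_simp
  rw [div_eq_iff h2]
  have h4 : (I * (1 + 1 / (1 + 2 * I)) : ℂ) * (1 + 2 * I) =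
      (1 + I) * (1 - 1 / (1 + 2 * I)) * (1 + 2 * I) := by
    linear_combination (1 + 2 * I) * h3
  exact mul_right_cancel₀ h h4

theorem th4_I : th4 I = th2 I := by
  have h := jacobiTheta₂_functional_equation (1 / 2) I
  simp only [th4, th2]
  rw [h]
  have e1 : (-I * I : ℂ) = 1 := by rw [neg_mul, Complex.I_mul_I, neg_neg]
  have e2 : (-1 / I : ℂ) = I := by
    rw [div_eq_iff Complex.I_ne_zero, Complex.I_mul_I]
  have e3 : (1 / 2 / I : ℂ) = -(I / 2) := by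
    rw [div_eq_iff Complex.I_ne_zero]
    linear_combination (1 / 2 : ℂ) * Complex.I_mul_I
  have e4 : (-π * I * (1 / 2) ^ 2 / I : ℂ) = π * I * I / 4 := by
    rw [div_eq_iff Complex.I_ne_zero]
    linear_combination (-1 / 4 : ℂ) * π * I * Complex.I_mul_I
  rw [e1, e2, e3, e4, jacobiTheta₂_neg_left]
  simp

/-- the ratio `|A/B|` is not constant. -/
theorem ratio_nonconst : ‖A 0‖ * ‖B (1 / (1 + 2 * I))‖ ≠ ‖A (1 / (1 + 2 * I))‖ * ‖B 0‖ := by
  set w : ℂ := 1 / (1 + 2 * I) with hw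
  have hI : (0 : ℝ) < (I : ℂ).im := by simp
  have hn : ‖(1 - w : ℂ)‖ ≠ 0 := by
    rw [norm_ne_zero_iff]
    have h : (1 + 2 * I : ℂ) ≠ 0 := by
      intro h
      have := congrArg Complex.re h
      simp at this
    have : (1 - 1 / (1 + 2 * I) : ℂ) = 2 * I / (1 + 2 * I) := by field_simp; ring
    rw [hw, this]
    exact div_ne_zero (mul_ne_zero two_ne_zero I_ne_zero) h
  have h2 : ‖th2 I‖ ≠ 0 := norm_ne_zero_iff.mpr (th2_ne_zero hI)
  have hJ : ‖th3 I‖ ^ 4 = 2 * ‖th2 I‖ ^ 4 := by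
    have := th4_pow_four I hI
    rw [th4_I] at this
    have h3 : th3 I ^ 4 = 2 * th2 I ^ 4 := by linear_combination -this
    rw [← norm_pow, h3, norm_mul, norm_pow]; simp
  intro h
  unfold A B at h
  rw [cay_zero, hw, cay_w1, ← hw] at h
  have e1 : ‖th2 (1 + I)‖ = ‖th2 I‖ := by rw [add_comm, norm_th2_add_one]
  have e2 : ‖th3 (1 + I)‖ = ‖th2 I‖ := by rw [add_comm, th3_add_one, th4_I]
  simp only [norm_div, norm_pow, e1, e2, sub_zero, norm_one, div_one] at h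
  have h6 : ‖th2 I‖ ^ 2 = ‖th3 I‖ ^ 2 := by
    field_simp at h
    exact h
  have h7 : ‖th2 I‖ ^ 4 = 2 * ‖th2 I‖ ^ 4 := by
    rw [← hJ]
    calc ‖th2 I‖ ^ 4 = (‖th2 I‖ ^ 2) ^ 2 := by ring
      _ = (‖th3 I‖ ^ 2) ^ 2 := by rw [h6]
      _ = _ := by ring
  have h8 : ‖th2 I‖ ^ 4 = 0 := by linarith
  exact h2 (pow_eq_zero_iff (by norm_num) |>.mp h8)

end Pool.Agent.Lib.MP_05b8f3_gt
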