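import Mathlib

set_option autoImplicit false

open Complex Real Metric MeasureTheory Set Filter Topology

namespace Pool.Agent.Lib.MP_05b8f3_gt

/-- The length estimate: a path in the disc leaving every compact set has infinite length for any
density at least `c / (1 - ‖z‖ ^ 2)`. -/
theorem path_length (ρ : ℂ → ℝ) (c : ℝ) (hc : 0 < c)
    (hρ : ∀ z ∈ ball (0 : ℂ) 1, c / (1 - ‖z‖ ^ 2) ≤ ρ z)
    (γ : ℝ → ℂ) (hγ : ContDiffOn ℝ 1 γ (Ico 0 1)) (hm : MapsTo γ (Ico 0 1) (ball (0 : ℂ) 1))
    (hK : ∀ K : Set ℂ, IsCompact K → K ⊆ ball (0 : ℂ) 1 → ∀ᶠ t in 𝓝[<] (1 : ℝ), γ t ∉ K)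
    (F : ℝ → ℝ) (hF : ∀ t ∈ Ioo (0 : ℝ) 1, ρ (γ t) * ‖deriv γ t‖ ≤ F t) :
    ∫⁻ t in Ioo (0 : ℝ) 1, ENNReal.ofReal (F t) = ⊤ := by
  -- the potential
  set L : ℝ → ℝ := fun t => -Real.log (1 - Complex.normSq (γ t)) with hL
  have hlt : ∀ t ∈ Ico (0 : ℝ) 1, Complex.normSq (γ t) < 1 := by
    intro t ht
    have := hm ht
    rw [mem_ball_zero_iff] at this
    rw [Complex.normSq_eq_norm_sq]
    have h0 := norm_nonneg (γ t)
    nlinarith
  have hIoo : ∀ t ∈ Ioo (0 : ℝ) 1, DifferentiableAt ℝ γ t := by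
    intro t ht
    exact (hγ.differentiableOn (by norm_num)).differentiableAt (Ico_mem_nhds ht.1 ht.2)
  have hder : ∀ t ∈ Ioo (0 : ℝ) 1, HasDerivAt L
      ((2 * ((γ t).re * (deriv γ t).re + (γ t).im * (deriv γ t).im)) / (1 - Complex.normSq (γ t))) t := by
    intro t ht
    have h1 := (hIoo t ht).hasDerivAt
    have hre : HasDerivAt (fun s => (γ s).re) (deriv γ t).re t := by
      exact Complex.reCLM.hasFDerivAt.comp_hasDerivAt t h1
    have him : HasDerivAt (fun s => (γ s).im) (deriv γ t).im t := by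
      exact Complex.imCLM.hasFDerivAt.comp_hasDerivAt t h1
    have h2 : HasDerivAt (fun s => 1 - Complex.normSq (γ s))
        (-(2 * ((γ t).re * (deriv γ t).re + (γ t).im * (deriv γ t).im))) t := by
      have := ((hre.mul hre).add (him.mul him)).const_sub 1
      refine (this.congr_deriv ?_).congr_of_eventuallyEq ?_
      · ring
      · filter_upwards with s
        simp [Complex.normSq_apply]
    have h3 := hlt t ⟨ht.1.le, ht.2⟩
    have h4 := (h2.log (by linarith)).neg
    refine h4.congr_deriv ?_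
    ring
  -- derivative bound
  have hbound : ∀ t ∈ Ioo (0 : ℝ) 1,
      |(2 * ((γ t).re * (deriv γ t).re + (γ t).im * (deriv γ t).im)) / (1 - Complex.normSq (γ t))|
        ≤ (2 / c) * F t := by
    intro t ht
    have h3 := hlt t ⟨ht.1.le, ht.2⟩
    have hpos : 0 < 1 - Complex.normSq (γ t) := by linarith
    rw [abs_div, abs_of_pos hpos, abs_mul]
    have h5 : |(γ t).re * (deriv γ t).re + (γ t).im * (deriv γ t).im| ≤ ‖deriv γ t‖ := by
      have e : (γ t).re * (deriv γ t).re + (γ t).im * (deriv γ t).im =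
          ((starRingEnd ℂ) (γ t) * deriv γ t).re := by
        simp [Complex.mul_re]
      rw [e]
      refine (Complex.abs_re_le_norm _).trans ?_
      rw [norm_mul, RCLike.norm_conj]
      have h6 : ‖γ t‖ ≤ 1 := by
        have := hm (show t ∈ Ico (0 : ℝ) 1 from ⟨ht.1.le, ht.2⟩)
        rw [mem_ball_zero_iff] at this
        exact this.le
      exact mul_le_of_le_one_left (norm_nonneg _) h6
    have h7 := hρ (γ t) (hm ⟨ht.1.le, ht.2⟩)
    rw [← Complex.normSq_eq_norm_sq] at h7
    have h8 := hF t ht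
    have h9 : c / (1 - Complex.normSq (γ t)) * ‖deriv γ t‖ ≤ F t :=
      (mul_le_mul_of_nonneg_right h7 (norm_nonneg _)).trans h8
    have h10 : |(2 : ℝ)| = 2 := by norm_num
    rw [h10]
    calc 2 * |(γ t).re * (deriv γ t).re + (γ t).im * (deriv γ t).im| / (1 - Complex.normSq (γ t))
        ≤ 2 * ‖deriv γ t‖ / (1 - Complex.normSq (γ t)) := by gcongr
      _ = (2 / c) * (c / (1 - Complex.normSq (γ t)) * ‖deriv γ t‖) := by field_simp
      _ ≤ (2 / c) * F t := by gcongr
  by_contra hne
  set M := ∫⁻ t in Ioo (0 : ℝ) 1, ENNReal.ofReal (F t) with hM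
  -- continuity of the derivative
  have hcont : ContinuousOn (deriv γ) (Ioo 0 1) := by
    have := (hγ.mono Ioo_subset_Ico_self).continuousOn_deriv_of_isOpen isOpen_Ioo (by norm_num)
    exact this
  have hcontγ : ContinuousOn γ (Ioo 0 1) := (hγ.mono Ioo_subset_Ico_self).continuousOn
  have hkey : ∀ t ∈ Ioo (1 / 2 : ℝ) 1, ENNReal.ofReal (L t - L (1 / 2)) ≤ ENNReal.ofReal (2 / c) * M := by
    intro t ht
    have hsub : Icc (1 / 2 : ℝ) t ⊆ Ioo 0 1 := by
      intro s hs
      exact ⟨by linarith [hs.1], by linarith [hs.2, ht.2]⟩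
    have huIcc : uIcc (1 / 2 : ℝ) t = Icc (1 / 2) t := uIcc_of_le ht.1.le
    have hint : IntervalIntegrable (fun t => (2 * ((γ t).re * (deriv γ t).re +
        (γ t).im * (deriv γ t).im)) / (1 - Complex.normSq (γ t))) volume (1 / 2) t := by
      apply ContinuousOn.intervalIntegrable
      rw [huIcc]
      have c1 := hcont.mono hsub
      have c2 := hcontγ.mono hsub
      apply ContinuousOn.div
      · apply ContinuousOn.mul continuousOn_const
        apply ContinuousOn.add
        · exact (Complex.continuous_re.comp_continuousOn c2).mul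
            (Complex.continuous_re.comp_continuousOn c1)
        · exact (Complex.continuous_im.comp_continuousOn c2).mul
            (Complex.continuous_im.comp_continuousOn c1)
      · exact continuousOn_const.sub (Complex.continuous_normSq.comp_continuousOn c2)
      · intro s hs
        have := hlt s ⟨(hsub hs).1.le, (hsub hs).2⟩
        linarith
    have hftc := intervalIntegral.integral_eq_sub_of_hasDerivAt
      (fun s hs => hder s (hsub (huIcc ▸ hs))) hint
    rw [← hftc, intervalIntegral.integral_of_le ht.1.le]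
    refine (ENNReal.ofReal_le_ofReal (le_abs_self _)).trans ?_
    rw [← Real.norm_eq_abs]
    rw [ofReal_norm]
    refine (enorm_integral_le_lintegral_enorm _).trans ?_
    rw [hM, ← lintegral_const_mul' _ _ ENNReal.ofReal_ne_top]
    calc ∫⁻ s in Ioc (1 / 2 : ℝ) t, ‖(2 * ((γ s).re * (deriv γ s).re +
        (γ s).im * (deriv γ s).im)) / (1 - Complex.normSq (γ s))‖ₑ
        ≤ ∫⁻ s in Ioc (1 / 2 : ℝ) t, ENNReal.ofReal (2 / c) * ENNReal.ofReal (F s) := by
          apply setLIntegral_mono' measurableSet_Ioc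
          intro s hs
          have hs' : s ∈ Ioo (0 : ℝ) 1 := hsub ⟨hs.1.le, hs.2⟩
          rw [← ofReal_norm, Real.norm_eq_abs, ← ENNReal.ofReal_mul (by positivity)]
          exact ENNReal.ofReal_le_ofReal (hbound s hs')
      _ ≤ ∫⁻ s in Ioo (0 : ℝ) 1, ENNReal.ofReal (2 / c) * ENNReal.ofReal (F s) := by
          apply lintegral_mono_set
          intro s hs
          exact hsub ⟨hs.1.le, hs.2⟩
  -- a bound on L
  have hfin : ENNReal.ofReal (2 / c) * M ≠ ⊤ := ENNReal.mul_ne_top ENNReal.ofReal_ne_top hne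
  set R : ℝ := (ENNReal.ofReal (2 / c) * M).toReal with hR
  have hLb : ∀ t ∈ Ioo (1 / 2 : ℝ) 1, L t ≤ L (1 / 2) + R := by
    intro t ht
    have h1 := hkey t ht
    have h2 : L t - L (1 / 2) ≤ R := by
      by_contra hcon
      push Not at hcon
      have hR0 : 0 ≤ R := ENNReal.toReal_nonneg
      rw [ENNReal.ofReal_le_iff_le_toReal hfin] at h1
      linarith
    linarith
  -- conclude: gamma stays in a compact ball
  set r : ℝ := Real.exp (-(L (1 / 2) + R)) with hr
  have hr0 : 0 < r := Real.exp_pos _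
  have hsmall : ∀ t ∈ Ioo (1 / 2 : ℝ) 1, r ≤ 1 - Complex.normSq (γ t) := by
    intro t ht
    have h1 := hLb t ht
    have h3 := hlt t ⟨by linarith [ht.1], ht.2⟩
    have hpos : 0 < 1 - Complex.normSq (γ t) := by linarith
    have h2 : -(L (1 / 2) + R) ≤ Real.log (1 - Complex.normSq (γ t)) := by
      simp only [hL] at h1 ⊢
      linarith
    calc r ≤ Real.exp (Real.log (1 - Complex.normSq (γ t))) := Real.exp_le_exp.mpr h2
      _ = _ := Real.exp_log hpos
  have hKc : IsCompact {z : ℂ | r ≤ 1 - Complex.normSq z} := by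
    apply Metric.isCompact_of_isClosed_isBounded
    · exact isClosed_le continuous_const (continuous_const.sub Complex.continuous_normSq)
    · rw [isBounded_iff_forall_norm_le]
      refine ⟨1, fun z hz => ?_⟩
      simp only [mem_ofPred_eq] at hz
      rw [Complex.normSq_eq_norm_sq] at hz
      have := norm_nonneg z
      nlinarith
  have hKs : {z : ℂ | r ≤ 1 - Complex.normSq z} ⊆ ball (0 : ℂ) 1 := by
    intro z hz
    simp only [mem_ofPred_eq] at hz
    rw [Complex.normSq_eq_norm_sq] at hz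
    rw [mem_ball_zero_iff]
    have := norm_nonneg z
    nlinarith
  have hev := hK _ hKc hKs
  have hev2 : ∀ᶠ t in 𝓝[<] (1 : ℝ), t ∈ Ioo (1 / 2 : ℝ) 1 := by
    apply Ioo_mem_nhdsLT
    norm_num
  have := (hev.and hev2).exists
  obtain ⟨t, ht1, ht2⟩ := this
  exact ht1 (hsmall t ht2)

end Pool.Agent.Lib.MP_05b8f3_gt
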