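import Pool.Agent.Lib.MP_05b8f3_gt.Disc
import Pool.Agent.Lib.MP_05b8f3_gt.Path

set_option autoImplicit false

open Complex Real Metric MeasureTheory Set Filter Topology

namespace Pool.Agent.Lib.MP_05b8f3_gt

/-- The Weierstrass forms built from `a, b`. -/
noncomputable def phi (a b : ℂ → ℂ) (k : Fin 3) (z : ℂ) : ℂ :=
  ![(b z ^ 2 - a z ^ 2) / 2, I * (b z ^ 2 + a z ^ 2) / 2, a z * b z] k

/-- Real parts of a vector of complex numbers times `v`. -/
noncomputable def dX (a b : ℂ) (v : ℂ) : Fin 3 → ℝ :=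
  ![(((b ^ 2 - a ^ 2) / 2) * v).re, ((I * (b ^ 2 + a ^ 2) / 2) * v).re, ((a * b) * v).re]

theorem dX_sq (a b v : ℂ) :
    ∑ i, (dX a b v i) ^ 2 = ((1 / 2) * (‖a‖ ^ 2 + ‖b‖ ^ 2) * ‖v‖) ^ 2 := by
  have ha : ‖a‖ ^ 2 = a.re * a.re + a.im * a.im := by
    rw [← Complex.normSq_eq_norm_sq, Complex.normSq_apply]
  have hb : ‖b‖ ^ 2 = b.re * b.re + b.im * b.im := by
    rw [← Complex.normSq_eq_norm_sq, Complex.normSq_apply]
  have hv : ‖v‖ ^ 2 = v.re * v.re + v.im * v.im := by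
    rw [← Complex.normSq_eq_norm_sq, Complex.normSq_apply]
  have : ((1 / 2) * (‖a‖ ^ 2 + ‖b‖ ^ 2) * ‖v‖) ^ 2 =
      (1 / 4) * (‖a‖ ^ 2 + ‖b‖ ^ 2) ^ 2 * ‖v‖ ^ 2 := by ring
  rw [this, ha, hb, hv, Fin.sum_univ_three]
  simp only [dX, Matrix.cons_val_zero, Matrix.cons_val_one, Matrix.cons_val, pow_two,
    Complex.mul_re, Complex.mul_im, Complex.div_re, Complex.div_im, Complex.sub_re, Complex.sub_im,
    Complex.add_re, Complex.add_im, Complex.I_re, Complex.I_im, Complex.normSq_ofNat,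
    Complex.re_ofNat, Complex.im_ofNat]
  ring

theorem dX_orth (a b : ℂ) : ∑ i, dX a b 1 i * dX a b I i = 0 := by
  rw [Fin.sum_univ_three]
  simp only [dX, Matrix.cons_val_zero, Matrix.cons_val_one, Matrix.cons_val, pow_two,
    Complex.mul_re, Complex.mul_im, Complex.div_re, Complex.div_im, Complex.sub_re, Complex.sub_im,
    Complex.add_re, Complex.add_im, Complex.I_re, Complex.I_im, Complex.normSq_ofNat,
    Complex.re_ofNat, Complex.im_ofNat, Complex.one_re, Complex.one_im]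
  ring

/-- The squared length `|a|² + |b|²`. -/
noncomputable def ss (a b : ℂ) : ℝ := (a.re ^ 2 + a.im ^ 2) + (b.re ^ 2 + b.im ^ 2)

/-- The normal direction. -/
noncomputable def nn (a b : ℂ) : Fin 3 → ℝ :=
  ![2 * (a.re * b.re + a.im * b.im), 2 * (a.im * b.re - a.re * b.im),
    (a.re ^ 2 + a.im ^ 2) - (b.re ^ 2 + b.im ^ 2)]

theorem cross_eq (a b : ℂ) :
    crossProduct (dX a b 1) (dX a b I) = ((1 / 4) * ss a b) • nn a b := by
  ext i
  rw [cross_apply]
  fin_cases i <;>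
  simp only [dX, nn, ss, Matrix.cons_val_zero, Matrix.cons_val_one, Matrix.cons_val, pow_two,
    Complex.mul_re, Complex.mul_im, Complex.div_re, Complex.div_im, Complex.sub_re, Complex.sub_im,
    Complex.add_re, Complex.add_im, Complex.I_re, Complex.I_im, Complex.normSq_ofNat,
    Complex.re_ofNat, Complex.im_ofNat, Complex.one_re, Complex.one_im, Pi.smul_apply,
    smul_eq_mul, Fin.zero_eta, Fin.mk_one, Fin.reduceFinMk] <;>
  ring

theorem nn_sq (a b : ℂ) : ∑ i, (nn a b i) ^ 2 = ss a b ^ 2 := by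
  rw [Fin.sum_univ_three]
  simp only [nn, ss, Matrix.cons_val_zero, Matrix.cons_val_one, Matrix.cons_val]
  ring

theorem ss_pos {a b : ℂ} (ha : a ≠ 0) : 0 < ss a b := by
  have : 0 < a.re ^ 2 + a.im ^ 2 := by
    have := Complex.normSq_pos.mpr ha
    rw [Complex.normSq_apply] at this
    nlinarith
  unfold ss
  positivity

theorem gauss_eq (a b : ℂ) (ha : a ≠ 0) :
    (Real.sqrt (∑ i, (crossProduct (dX a b 1) (dX a b I) i) ^ 2))⁻¹ •
            crossProduct (dX a b 1) (dX a b I) = (ss a b)⁻¹ • nn a b := by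
  have hs := ss_pos (b := b) ha
  have h1 : ∑ i, (crossProduct (dX a b 1) (dX a b I) i) ^ 2 = ((1 / 4) * ss a b ^ 2) ^ 2 := by
    rw [cross_eq]
    have : ∀ i, ((((1 / 4) * ss a b) • nn a b) i) ^ 2 = ((1 / 4) * ss a b) ^ 2 * (nn a b i) ^ 2 := by
      intro i
      simp only [Pi.smul_apply, smul_eq_mul]; ring
    simp_rw [this]
    rw [← Finset.mul_sum, nn_sq]; ring
  rw [h1, Real.sqrt_sq (by positivity), cross_eq, smul_smul]
  congr 1
  field_simp

theorem gauss_ne {a b : ℂ} (ha : a ≠ 0) (hb : b ≠ 0) (h1 : a ≠ b) (h2 : a ≠ -b)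
    {v : Fin 3 → ℝ} (hv : v = ![0, 0, 1] ∨ v = ![0, 0, -1] ∨ v = ![1, 0, 0] ∨ v = ![-1, 0, 0]) :
    (ss a b)⁻¹ • nn a b ≠ v := by
  have hs := ss_pos (b := b) ha
  intro h
  have h3 : nn a b = ss a b • v := by
    rw [← h, smul_smul, mul_inv_cancel₀ hs.ne', one_smul]
  have c0 := congrFun h3 0
  have c2 := congrFun h3 2
  rcases hv with rfl | rfl | rfl | rfl
  · simp only [nn, ss, Matrix.cons_val, Pi.smul_apply, smul_eq_mul] at c2
    apply hb
    have e1 : b.re ^ 2 + b.im ^ 2 = 0 := by linarith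
    apply Complex.ext
    · simp only [Complex.zero_re]; nlinarith [sq_nonneg b.re, sq_nonneg b.im]
    · simp only [Complex.zero_im]; nlinarith [sq_nonneg b.re, sq_nonneg b.im]
  · simp only [nn, ss, Matrix.cons_val, Pi.smul_apply, smul_eq_mul] at c2
    apply ha
    have e1 : a.re ^ 2 + a.im ^ 2 = 0 := by linarith
    apply Complex.ext
    · simp only [Complex.zero_re]; nlinarith [sq_nonneg a.re, sq_nonneg a.im]
    · simp only [Complex.zero_im]; nlinarith [sq_nonneg a.re, sq_nonneg a.im]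
  · simp only [nn, ss, Matrix.cons_val_zero, Pi.smul_apply, smul_eq_mul] at c0
    apply h1
    have e1 : (a.re - b.re) ^ 2 + (a.im - b.im) ^ 2 = 0 := by nlinarith
    apply Complex.ext
    · nlinarith [sq_nonneg (a.re - b.re), sq_nonneg (a.im - b.im)]
    · nlinarith [sq_nonneg (a.re - b.re), sq_nonneg (a.im - b.im)]
  · simp only [nn, ss, Matrix.cons_val_zero, Pi.smul_apply, smul_eq_mul] at c0
    apply h2
    have e1 : (a.re + b.re) ^ 2 + (a.im + b.im) ^ 2 = 0 := by nlinarith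
    apply Complex.ext
    · simp only [Complex.neg_re]; nlinarith [sq_nonneg (a.re + b.re), sq_nonneg (a.im + b.im)]
    · simp only [Complex.neg_im]; nlinarith [sq_nonneg (a.re + b.re), sq_nonneg (a.im + b.im)]

/-- Two values of the Gauss map coincide only if the ratios `|a/b|` coincide. -/
theorem gauss_eq_imp {a b c d : ℂ} (ha : a ≠ 0) (hc : c ≠ 0)
    (h : (ss a b)⁻¹ • nn a b = (ss c d)⁻¹ • nn c d) : ‖a‖ * ‖d‖ = ‖c‖ * ‖b‖ := by
  have hs := ss_pos (b := b) ha
  have ht := ss_pos (b := d) hc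
  have c2 := congrFun h 2
  simp only [nn, Matrix.cons_val, Pi.smul_apply, smul_eq_mul] at c2
  have ha2 : ‖a‖ ^ 2 = a.re ^ 2 + a.im ^ 2 := by
    rw [← Complex.normSq_eq_norm_sq, Complex.normSq_apply]; ring
  have hb2 : ‖b‖ ^ 2 = b.re ^ 2 + b.im ^ 2 := by
    rw [← Complex.normSq_eq_norm_sq, Complex.normSq_apply]; ring
  have hc2 : ‖c‖ ^ 2 = c.re ^ 2 + c.im ^ 2 := by
    rw [← Complex.normSq_eq_norm_sq, Complex.normSq_apply]; ring
  have hd2 : ‖d‖ ^ 2 = d.re ^ 2 + d.im ^ 2 := by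
    rw [← Complex.normSq_eq_norm_sq, Complex.normSq_apply]; ring
  unfold ss at hs ht c2
  rw [← ha2, ← hb2] at hs c2
  rw [← hc2, ← hd2] at ht c2
  field_simp at c2
  have e : (‖a‖ * ‖d‖) ^ 2 = (‖c‖ * ‖b‖) ^ 2 := by nlinarith
  have h1 : 0 ≤ ‖a‖ * ‖d‖ := by positivity
  have h2 : 0 ≤ ‖c‖ * ‖b‖ := by positivity
  exact (pow_left_inj₀ h1 h2 two_ne_zero).mp e

/-- An even function has zero Frechet derivative at the origin. -/
theorem fderiv_even {E : Type*} [NormedAddCommGroup E] [NormedSpace ℝ E] (f : ℂ → E)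
    (h : ∀ z ∈ ball (0 : ℂ) 1, f (-z) = f z) : fderiv ℝ f 0 = 0 := by
  by_cases hd : DifferentiableAt ℝ f 0
  · have h1 := hd.hasFDerivAt
    have h2 : HasFDerivAt (fun z : ℂ => f (-z)) (-(fderiv ℝ f 0)) 0 := by
      have h3 : HasFDerivAt (fun z : ℂ => -z) (-(ContinuousLinearMap.id ℝ ℂ)) 0 :=
        (hasFDerivAt_id (0 : ℂ)).neg
      have h4 : HasFDerivAt f (fderiv ℝ f 0) (-(0 : ℂ)) := by simpa using h1
      have h5 := h4.comp (0 : ℂ) h3
      refine h5.congr_fderiv ?_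
      ext
      simp
    have h6 : HasFDerivAt f (-(fderiv ℝ f 0)) 0 := by
      refine h2.congr_of_eventuallyEq ?_
      filter_upwards [ball_mem_nhds (0 : ℂ) one_pos] with z hz
      exact (h z hz).symm
    have h7 := h1.unique h6
    have h8 : (2 : ℝ) • fderiv ℝ f 0 = 0 := by
      rw [two_smul]
      nth_rewrite 2 [h7]
      simp
    exact (smul_eq_zero.mp h8).resolve_left (by norm_num)
  · exact fderiv_zero_of_not_differentiableAt hd

end Pool.Agent.Lib.MP_05b8f3_gt
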