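import Mathlib

set_option autoImplicit false

open Complex Real

namespace Pool.Agent.Lib.MP_05b8f3_gt

/-- The product formula: splitting the double sum by the parity of `m + n`. -/
theorem theta_mul_theta (x y τ : ℂ) (hτ : 0 < τ.im) :
    jacobiTheta₂ x τ * jacobiTheta₂ y τ =
      jacobiTheta₂ (x + y) (2 * τ) * jacobiTheta₂ (x - y) (2 * τ) +
      cexp (π * I * (2 * x + τ)) *
        (jacobiTheta₂ (x + y + τ) (2 * τ) * jacobiTheta₂ (x - y + τ) (2 * τ)) := by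
  have h2 : 0 < (2 * τ).im := by
    simp [Complex.mul_im]; exact hτ
  -- summability of norms
  have hsn : ∀ z w : ℂ, 0 < w.im → Summable (fun n : ℤ => ‖jacobiTheta₂_term n z w‖) := by
    intro z w hw
    exact ((summable_jacobiTheta₂_term_iff z w).mpr hw).norm
  have hprod : ∀ z z' w : ℂ, 0 < w.im →
      HasSum (fun p : ℤ × ℤ => jacobiTheta₂_term p.1 z w * jacobiTheta₂_term p.2 z' w)
        (jacobiTheta₂ z w * jacobiTheta₂ z' w) := by
    intro z z' w hw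
    have h3 := summable_mul_of_summable_norm (f := fun n : ℤ => jacobiTheta₂_term n z w)
      (g := fun n : ℤ => jacobiTheta₂_term n z' w) (hsn z w hw) (hsn z' w hw)
    exact HasSum.mul (f := fun n : ℤ => jacobiTheta₂_term n z w)
      (g := fun n : ℤ => jacobiTheta₂_term n z' w)
      (hasSum_jacobiTheta₂_term z hw) (hasSum_jacobiTheta₂_term z' hw) h3
  -- the equivalence
  let e : (ℤ × ℤ) ⊕ (ℤ × ℤ) ≃ ℤ × ℤ :=
    { toFun := fun s => match s with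
        | Sum.inl p => (p.1 + p.2, p.1 - p.2)
        | Sum.inr p => (p.1 + p.2 + 1, p.1 - p.2)
      invFun := fun q => if (q.1 + q.2) % 2 = 0 then
          Sum.inl ((q.1 + q.2) / 2, (q.1 - q.2) / 2)
        else Sum.inr ((q.1 + q.2 - 1) / 2, (q.1 - q.2 - 1) / 2)
      left_inv := by
        rintro (⟨a, b⟩ | ⟨a, b⟩)
        · have : (a + b + (a - b)) % 2 = 0 := by omega
          simp only [this, if_true]
          congr 2 <;> omega
        · have : ¬ (a + b + 1 + (a - b)) % 2 = 0 := by omega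
          simp only [this, if_false]
          congr 2 <;> omega
      right_inv := by
        rintro ⟨a, b⟩
        by_cases h : (a + b) % 2 = 0
        · simp only [h, if_true]
          ext <;> simp <;> omega
        · simp only [h, if_false]
          ext <;> simp <;> omega }
  have hA := hprod x y τ hτ
  rw [← e.hasSum_iff] at hA
  have hB := hprod (x + y) (x - y) (2 * τ) h2
  have hC := (hprod (x + y + τ) (x - y + τ) (2 * τ) h2).mul_left (cexp (π * I * (2 * x + τ)))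
  have hB' : HasSum (((fun p : ℤ × ℤ => jacobiTheta₂_term p.1 x τ * jacobiTheta₂_term p.2 y τ) ∘ e)
      ∘ Sum.inl) (jacobiTheta₂ (x + y) (2 * τ) * jacobiTheta₂ (x - y) (2 * τ)) := by
    suffices key : (((fun p : ℤ × ℤ => jacobiTheta₂_term p.1 x τ * jacobiTheta₂_term p.2 y τ) ∘ e)
      ∘ Sum.inl) = fun p : ℤ × ℤ => jacobiTheta₂_term p.1 (x + y) (2 * τ) *
        jacobiTheta₂_term p.2 (x - y) (2 * τ) by rw [key]; exact hB
    funext p
    obtain ⟨a, b⟩ := p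
    simp only [Function.comp, e, Equiv.coe_fn_mk, jacobiTheta₂_term, ← Complex.exp_add]
    congr 1
    push_cast
    ring
  have hC' : HasSum (((fun p : ℤ × ℤ => jacobiTheta₂_term p.1 x τ * jacobiTheta₂_term p.2 y τ) ∘ e)
      ∘ Sum.inr) (cexp (π * I * (2 * x + τ)) *
        (jacobiTheta₂ (x + y + τ) (2 * τ) * jacobiTheta₂ (x - y + τ) (2 * τ))) := by
    suffices key : (((fun p : ℤ × ℤ => jacobiTheta₂_term p.1 x τ * jacobiTheta₂_term p.2 y τ) ∘ e)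
      ∘ Sum.inr) = fun p : ℤ × ℤ => cexp (π * I * (2 * x + τ)) *
        (jacobiTheta₂_term p.1 (x + y + τ) (2 * τ) *
        jacobiTheta₂_term p.2 (x - y + τ) (2 * τ)) by rw [key]; exact hC
    funext p
    obtain ⟨a, b⟩ := p
    simp only [Function.comp, e, Equiv.coe_fn_mk, jacobiTheta₂_term, ← Complex.exp_add]
    congr 1
    push_cast
    ring
  exact hA.unique (HasSum.sum hB' hC')

/-- `θ₃`. -/
noncomputable def th3 (τ : ℂ) : ℂ := jacobiTheta₂ 0 τ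

/-- `θ₄`. -/
noncomputable def th4 (τ : ℂ) : ℂ := jacobiTheta₂ (1 / 2) τ

/-- `θ₂`. -/
noncomputable def th2 (τ : ℂ) : ℂ := cexp (π * I * τ / 4) * jacobiTheta₂ (τ / 2) τ

theorem im_two_mul {τ : ℂ} (hτ : 0 < τ.im) : 0 < (2 * τ).im := by
  simp [Complex.mul_im]; exact hτ

/-- `θ₃(τ)² = θ₃(2τ)² + θ₂(2τ)²`. -/
theorem th3_sq (τ : ℂ) (hτ : 0 < τ.im) : th3 τ ^ 2 = th3 (2 * τ) ^ 2 + th2 (2 * τ) ^ 2 := by
  have h := theta_mul_theta 0 0 τ hτ
  simp only [add_zero, sub_zero, mul_zero, zero_add] at h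
  have h1 : (2 * τ) / 2 = τ := by ring
  have h2 : cexp (π * I * τ) = cexp (π * I * (2 * τ) / 4) ^ 2 := by
    rw [← Complex.exp_nat_mul]; congr 1; push_cast; ring
  rw [h2] at h
  simp only [th3, th2, h1]
  rw [pow_two (jacobiTheta₂ 0 τ), h]
  ring

/-- `θ₄(τ)² = θ₃(2τ)² - θ₂(2τ)²`. -/
theorem th4_sq (τ : ℂ) (hτ : 0 < τ.im) : th4 τ ^ 2 = th3 (2 * τ) ^ 2 - th2 (2 * τ) ^ 2 := by
  have h := theta_mul_theta (1 / 2) (1 / 2) τ hτ
  have e1 : (1 / 2 + 1 / 2 : ℂ) = 0 + 1 := by norm_num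
  have e2 : (1 / 2 - 1 / 2 : ℂ) = 0 := by norm_num
  have e3 : (0 + 1 + τ : ℂ) = τ + 1 := by ring
  have e4 : (0 + τ : ℂ) = τ := by ring
  rw [e1, e2, e3, e4, jacobiTheta₂_add_left, jacobiTheta₂_add_left] at h
  have h1 : (2 * τ) / 2 = τ := by ring
  have h2 : cexp (π * I * (2 * (1 / 2) + τ)) = - cexp (π * I * (2 * τ) / 4) ^ 2 := by
    rw [← Complex.exp_nat_mul]
    have : (π * I * (2 * (1 / 2) + τ) : ℂ) = π * I + (2 : ℕ) * (π * I * (2 * τ) / 4) := by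
      push_cast; ring
    rw [this, Complex.exp_add, Complex.exp_pi_mul_I]; ring
  rw [h2] at h
  simp only [th3, th4, th2, h1]
  rw [pow_two (jacobiTheta₂ (1 / 2) τ), h]
  ring

/-- `θ₃(τ) θ₄(τ) = θ₄(2τ)²`. -/
theorem th3_mul_th4 (τ : ℂ) (hτ : 0 < τ.im) : th3 τ * th4 τ = th4 (2 * τ) ^ 2 := by
  have h := theta_mul_theta 0 (1 / 2) τ hτ
  have e1 : (0 + 1 / 2 : ℂ) = 1 / 2 := by norm_num
  have e2 : (0 - 1 / 2 : ℂ) = -(1 / 2) := by norm_num
  rw [e1, e2] at h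
  have hz : jacobiTheta₂ (1 / 2 + τ) (2 * τ) = 0 := by
    have q := jacobiTheta₂_add_left' (-1 / 2 - τ) (2 * τ)
    have e5 : (-1 / 2 - τ + 2 * τ : ℂ) = -1 / 2 + τ := by ring
    have e6 : (-1 / 2 - τ : ℂ) = -(1 / 2 + τ) := by ring
    have e7 : (-π * I * (2 * τ + 2 * (-1 / 2 - τ)) : ℂ) = π * I := by ring
    rw [e5, e7, Complex.exp_pi_mul_I, e6, jacobiTheta₂_neg_left] at q
    have e8 : (1 / 2 + τ : ℂ) = (-1 / 2 + τ) + 1 := by ring
    have q2 : jacobiTheta₂ (1 / 2 + τ) (2 * τ) = jacobiTheta₂ (-1 / 2 + τ) (2 * τ) := by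
      rw [e8, jacobiTheta₂_add_left]
    rw [← q2] at q
    linear_combination (1 / 2) * q
  rw [hz, jacobiTheta₂_neg_left] at h
  simp only [th3, th4]
  rw [h]
  ring

/-- the Jacobi identity in the form used below. -/
theorem th4_pow_four (τ : ℂ) (hτ : 0 < τ.im) :
    th4 τ ^ 4 = th3 τ ^ 4 - th2 τ ^ 4 := by
  have h2 : 0 < (τ / 2).im := by
    simp; exact hτ
  have e : 2 * (τ / 2) = τ := by ring
  have h3 := th3_sq (τ / 2) h2
  have h4 := th4_sq (τ / 2) h2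
  have h34 := th3_mul_th4 (τ / 2) h2
  rw [e] at h3 h4 h34
  calc th4 τ ^ 4 = (th4 τ ^ 2) ^ 2 := by ring
    _ = (th3 (τ / 2) * th4 (τ / 2)) ^ 2 := by rw [h34]
    _ = th3 (τ / 2) ^ 2 * th4 (τ / 2) ^ 2 := by ring
    _ = _ := by rw [h3, h4]; ring

/-! ### Behaviour under `τ ↦ τ + 1` -/

theorem jt_add_one (z τ : ℂ) : jacobiTheta₂ z (τ + 1) = jacobiTheta₂ (z + 1 / 2) τ := by
  refine tsum_congr (fun n ↦ ?_)
  simp only [jacobiTheta₂_term]
  rw [Complex.exp_eq_exp_iff_exists_int]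
  obtain ⟨k, hk⟩ : ∃ k : ℤ, n ^ 2 - n = 2 * k := by
    have : Even (n ^ 2 - n) := by
      have := Int.even_mul_pred_self n
      have e : n ^ 2 - n = n * (n - 1) := by ring
      rw [e]; exact this
    obtain ⟨k, hk⟩ := this
    exact ⟨k, by omega⟩
  refine ⟨k, ?_⟩
  have hk' : (n : ℂ) ^ 2 - n = 2 * k := by exact_mod_cast hk
  linear_combination (π * I) * hk'

theorem th3_add_one (τ : ℂ) : th3 (τ + 1) = th4 τ := by
  simp only [th3, th4, jt_add_one]; norm_num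

theorem th4_add_one (τ : ℂ) : th4 (τ + 1) = th3 τ := by
  simp only [th3, th4, jt_add_one]
  have : (1 / 2 + 1 / 2 : ℂ) = 0 + 1 := by norm_num
  rw [this, jacobiTheta₂_add_left]

theorem norm_th2_add_one (τ : ℂ) : ‖th2 (τ + 1)‖ = ‖th2 τ‖ := by
  simp only [th2, jt_add_one, norm_mul]
  have e : ((τ + 1) / 2 + 1 / 2 : ℂ) = τ / 2 + 1 := by ring
  rw [e, jacobiTheta₂_add_left]
  congr 1
  rw [Complex.norm_exp, Complex.norm_exp]
  congr 1
  simp [Complex.mul_re, Complex.mul_im]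

/-! ### Behaviour under `τ ↦ -1/τ` -/

theorem norm_factor (τ : ℂ) (hτ : 0 < τ.im) :
    ‖(1 : ℂ) / (-I * τ) ^ (1 / 2 : ℂ)‖ ^ 4 * ‖τ‖ ^ 2 = 1 := by
  have h0 : τ ≠ 0 := by
    rintro rfl; simp at hτ
  have h1 : ‖(-I * τ) ^ (1 / 2 : ℂ)‖ ^ 2 = ‖τ‖ := by
    rw [← norm_pow, ← Complex.cpow_nat_mul]
    simp
  rw [norm_div, norm_one]
  have h2 : ‖(-I * τ) ^ (1 / 2 : ℂ)‖ ^ 4 = ‖τ‖ ^ 2 := by
    rw [← h1]; ring
  rw [div_pow, one_pow, h2, one_div, inv_mul_cancel₀]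
  exact pow_ne_zero _ (norm_ne_zero_iff.mpr h0)

theorem norm_th3_S (τ : ℂ) (hτ : 0 < τ.im) : ‖th3 (-1 / τ)‖ ^ 4 = ‖τ‖ ^ 2 * ‖th3 τ‖ ^ 4 := by
  have h := jacobiTheta₂_functional_equation 0 τ
  simp only [zero_div] at h
  have hf := norm_factor τ hτ
  have : ‖th3 τ‖ = ‖(1 : ℂ) / (-I * τ) ^ (1 / 2 : ℂ)‖ * ‖th3 (-1 / τ)‖ := by
    simp only [th3]
    rw [h]
    simp
  rw [this, mul_pow]
  linear_combination (-‖th3 (-1 / τ)‖ ^ 4) * hf

theorem norm_th4_S (τ : ℂ) (hτ : 0 < τ.im) : ‖th2 (-1 / τ)‖ ^ 4 = ‖τ‖ ^ 2 * ‖th4 τ‖ ^ 4 := by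
  have h := jacobiTheta₂_functional_equation (1 / 2) τ
  have hf := norm_factor τ hτ
  have h0 : τ ≠ 0 := by
    rintro rfl; simp at hτ
  have : ‖th4 τ‖ = ‖(1 : ℂ) / (-I * τ) ^ (1 / 2 : ℂ)‖ * ‖th2 (-1 / τ)‖ := by
    simp only [th4, th2]
    rw [h, mul_assoc, norm_mul]
    congr 1
    have e1 : (1 / 2 / τ : ℂ) = -((-1 / τ) / 2) := by field_simp
    have e2 : (-π * I * (1 / 2) ^ 2 / τ : ℂ) = π * I * (-1 / τ) / 4 := by field_simp; norm_num
    rw [e1, jacobiTheta₂_neg_left, e2]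
  rw [this, mul_pow]
  linear_combination (-‖th2 (-1 / τ)‖ ^ 4) * hf

theorem norm_th2_S (τ : ℂ) (hτ : 0 < τ.im) : ‖th4 (-1 / τ)‖ ^ 4 = ‖τ‖ ^ 2 * ‖th2 τ‖ ^ 4 := by
  have h0 : τ ≠ 0 := by
    rintro rfl; simp at hτ
  have him : 0 < (-1 / τ).im := by
    rw [neg_div, Complex.neg_im, one_div, Complex.inv_im]
    have : 0 < Complex.normSq τ := Complex.normSq_pos.mpr h0
    rw [neg_div, neg_neg]
    positivity
  have h := norm_th4_S (-1 / τ) him
  have e : -1 / (-1 / τ) = τ := by field_simp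
  rw [e] at h
  rw [h, norm_div, norm_neg, norm_one]
  have : ‖τ‖ ≠ 0 := norm_ne_zero_iff.mpr h0
  field_simp

end Pool.Agent.Lib.MP_05b8f3_gt
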